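import Pool.Agent.Helper74.CO.Goals

/-!
# Project CO: packet WPAT
-/

set_option autoImplicit false

namespace Pool.Agent.Helper36.CO

open Finset
open Pool.Agent.Helper74.CO

/-- membership in the Welch array -/
theorem mem_Wa (p : ℕ) [Fact p.Prime] (g c : ZMod p) (P : ℤ × ℤ) :
    P ∈ Wa p g c ↔ (0 ≤ P.1 ∧ P.1 ≤ (p : ℤ) - 2) ∧ (1 ≤ P.2 ∧ P.2 ≤ (p : ℤ) - 1) ∧
      c * g ^ P.1 = ((P.2 : ℤ) : ZMod p) := by
  classical
  unfold Wa
  rw [mem_filter, mem_product, mem_Icc, mem_Icc]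
  constructor
  · rintro ⟨⟨h1, h2⟩, h3⟩
    exact ⟨h1, h2, h3⟩
  · rintro ⟨h1, h2, h3⟩
    exact ⟨⟨h1, h2⟩, h3⟩

/-- the second coordinate is nonzero modulo `p` -/
theorem snd_ne (p : ℕ) [Fact p.Prime] (y : ℤ) (h1 : 1 ≤ y) (h2 : y ≤ (p : ℤ) - 1) :
    ((y : ℤ) : ZMod p) ≠ 0 := by
  intro h
  rw [ZMod.intCast_zmod_eq_zero_iff_dvd] at h
  have := Int.le_of_dvd (by omega) h
  omega

/-- equality modulo `p` of second coordinates -/
theorem snd_inj (p : ℕ) [Fact p.Prime] (y z : ℤ) (h1 : 1 ≤ y) (h2 : y ≤ (p : ℤ) - 1)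
    (h3 : 1 ≤ z) (h4 : z ≤ (p : ℤ) - 1) (h : ((y : ℤ) : ZMod p) = ((z : ℤ) : ZMod p)) : y = z := by
  have h5 : (((y - z : ℤ)) : ZMod p) = 0 := by
    push_cast
    rw [h, sub_self]
  rw [ZMod.intCast_zmod_eq_zero_iff_dvd] at h5
  obtain ⟨k, hk⟩ := h5
  have hp : (0 : ℤ) < p := by omega
  have hk1 : k < 1 := by
    by_contra hc
    push Not at hc
    nlinarith
  have hk2 : -1 < k := by
    by_contra hc
    push Not at hc
    nlinarith
  have hk0 : k = 0 := by omega
  rw [hk0] at hk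
  omega

theorem t_WPAT (hI : IND) : WPAT := by
  intro p _ g c hp hg hc
  obtain ⟨hg0, -, -, hgg⟩ := hI (ZMod p) g hg (by rw [ZMod.card]; exact hp)
  rw [ZMod.card] at hgg
  have hinj : ∀ a ∈ Wa p g c, ∀ b ∈ Wa p g c,
      ((a.2 : ℤ) : ZMod p) = ((b.2 : ℤ) : ZMod p) → a = b := by
    intro a ha b hb hab
    rw [mem_Wa] at ha hb
    obtain ⟨⟨a1, a2⟩, ⟨a3, a4⟩, a5⟩ := ha
    obtain ⟨⟨b1, b2⟩, ⟨b3, b4⟩, b5⟩ := hb
    have h2 : a.2 = b.2 := snd_inj p _ _ a3 a4 b3 b4 hab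
    have h1 : g ^ a.1 = g ^ b.1 := by
      have : c * g ^ a.1 = c * g ^ b.1 := by rw [a5, b5, hab]
      exact mul_left_cancel₀ hc this
    rw [hgg] at h1
    obtain ⟨k, hk⟩ := h1
    have hp : (0 : ℤ) < (p : ℤ) - 1 := by omega
    have hk1 : k < 1 := by
      by_contra hcc
      push Not at hcc
      nlinarith
    have hk2 : -1 < k := by
      by_contra hcc
      push Not at hcc
      nlinarith
    have hk0 : k = 0 := by omega
    rw [hk0] at hk
    exact Prod.ext (by omega) h2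
  refine ⟨?_, ?_, ?_, ?_⟩
  · intro P hP
    exact ((mem_Wa p g c P).1 hP).2.2
  · intro P hP
    rw [mem_Wa] at hP
    obtain ⟨⟨a1, a2⟩, ⟨a3, a4⟩, a5⟩ := hP
    refine ⟨a1, ?_, a3, ?_⟩ <;> omega
  · have hcard : #(Wa p g c) = #(range (p - 1)) := by
      refine Finset.card_nbij' (fun P => P.1.toNat)
        (fun n : ℕ => ((n : ℤ), ((c * g ^ n : ZMod p).val : ℤ))) ?_ ?_ ?_ ?_
      · intro P hP
        rw [mem_coe, mem_Wa] at hP
        obtain ⟨⟨a1, a2⟩, -, -⟩ := hP
        rw [mem_coe, mem_range]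
        show P.1.toNat < p - 1
        omega
      · intro n hn
        rw [mem_coe, mem_range] at hn
        rw [mem_coe, mem_Wa]
        have hne : c * g ^ n ≠ 0 := mul_ne_zero hc (pow_ne_zero _ hg0)
        have h1 : (c * g ^ n : ZMod p).val < p := ZMod.val_lt _
        have h2 : (c * g ^ n : ZMod p).val ≠ 0 := by
          rw [Ne, ZMod.val_eq_zero]
          exact hne
        refine ⟨⟨?_, ?_⟩, ⟨?_, ?_⟩, ?_⟩
        · positivity
        · show (n : ℤ) ≤ (p : ℤ) - 2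
          omega
        · show (1 : ℤ) ≤ ((c * g ^ n : ZMod p).val : ℤ)
          omega
        · show ((c * g ^ n : ZMod p).val : ℤ) ≤ (p : ℤ) - 1
          omega
        · show c * g ^ (n : ℤ) = ((((c * g ^ n : ZMod p).val : ℕ) : ℤ) : ZMod p)
          rw [Int.cast_natCast, ZMod.natCast_zmod_val, zpow_natCast]
      · intro P hP
        rw [mem_coe, mem_Wa] at hP
        obtain ⟨⟨a1, a2⟩, ⟨a3, a4⟩, a5⟩ := hP
        have h1 : ((P.1.toNat : ℕ) : ℤ) = P.1 := Int.toNat_of_nonneg a1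
        refine Prod.ext h1 ?_
        show ((c * g ^ P.1.toNat : ZMod p).val : ℤ) = P.2
        rw [← zpow_natCast, h1, a5, ZMod.val_intCast]
        exact Int.emod_eq_of_lt (by omega) (by omega)
      · intro n hn
        show ((n : ℤ)).toNat = n
        exact Int.toNat_natCast n
    rw [hcard, card_range]
  · intro a ha b hb a' ha' b' hb' hab
    have ka := (mem_Wa p g c a).1 ha
    have kb := (mem_Wa p g c b).1 hb
    have ka' := (mem_Wa p g c a').1 ha'
    have kb' := (mem_Wa p g c b').1 hb'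
    have e1 : a.1 - b.1 = a'.1 - b'.1 := by
      have := congrArg Prod.fst hab
      exact this
    have e2 : a.2 - b.2 = a'.2 - b'.2 := by
      have := congrArg Prod.snd hab
      exact this
    set l : ZMod p := g ^ (a.1 - b.1) with hl
    have xa : ((a.2 : ℤ) : ZMod p) = l * ((b.2 : ℤ) : ZMod p) := by
      rw [← ka.2.2, ← kb.2.2, hl, zpow_sub₀ hg0]
      field_simp
    have xa' : ((a'.2 : ℤ) : ZMod p) = l * ((b'.2 : ℤ) : ZMod p) := by
      rw [← ka'.2.2, ← kb'.2.2, hl, e1, zpow_sub₀ hg0]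
      field_simp
    have e3 : ((a.2 : ℤ) : ZMod p) - ((b.2 : ℤ) : ZMod p) =
        ((a'.2 : ℤ) : ZMod p) - ((b'.2 : ℤ) : ZMod p) := by
      have := congrArg (fun z : ℤ => (z : ZMod p)) e2
      push_cast at this
      exact this
    by_cases hl1 : l = 1
    · left
      apply hinj a ha b hb
      rw [xa, hl1, one_mul]
    · right
      have e4 : (l - 1) * ((b.2 : ℤ) : ZMod p) = (l - 1) * ((b'.2 : ℤ) : ZMod p) := by
        rw [xa, xa'] at e3
        linear_combination e3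
      have e5 := mul_left_cancel₀ (sub_ne_zero.2 hl1) e4
      have e6 : b = b' := hinj b hb b' hb' e5
      rw [e6] at hab
      have := sub_left_injective hab
      exact this

end Pool.Agent.Helper36.CO
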